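import Mathlib
import Pool.Agent.R365.AK.AffExc
import Pool.Agent.Y557.WK.Bridge

/-!
# The exceptions to the weak abc inequality at every level
-/

set_option autoImplicit false

namespace Pool.Agent.Results.MP_f5a5f7_nt.ExceptionsAtEveryLevel

open NumberField IsDedekindDomain

variable {K : Type} [Field K] [NumberField K]

/-- the height `h(x)`, as in the problem -/
noncomputable def height (x : K) : ℝ :=
  (1 / (Module.finrank ℚ K : ℝ)) *
    ((∑ w : InfinitePlace K, (w.mult : ℝ) * Real.log (max 1 (w x))) +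
      ∑ᶠ v : HeightOneSpectrum (𝓞 K), Real.log (max 1 (FinitePlace.mk v x)))

/-- the conductor `cond(x)`, as in the problem: the sum of `log N(v) / d` over the primes `v` at
which `x` has a positive valuation -/
noncomputable def cond (x : K) : ℝ :=
  (1 / (Module.finrank ℚ K : ℝ)) *
    (∑ᶠ v : HeightOneSpectrum (𝓞 K),
      (if FinitePlace.mk v x < 1 then Real.log (Ideal.absNorm v.asIdeal : ℝ) else 0))

/-- the set of the `x ∈ K`, `x ≠ 0, 1`, of height `H(x) = exp h(x) ≤ B`, with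
`κ (cond(x) + cond(1/x) + cond(x - 1)) ≤ h(x) + c` -/
def Exceptions (K : Type) [Field K] [NumberField K] (κ c B : ℝ) : Set K :=
  {x | x ≠ 0 ∧ x ≠ 1 ∧ Real.exp (height x) ≤ B ∧
    κ * (cond x + cond x⁻¹ + cond (x - 1)) ≤ height x + c}

/-- the exponent, a continuous piecewise linear function on `(0, 3]` -/
noncomputable def F (t : ℝ) : ℝ :=
  if t ≤ 7 / 15 then 4 * t / 7
  else if t ≤ 1 then (19 * t + 1) / 37
  else if t ≤ 9 / 7 then 5 * (9 * t - 1) / 74
  else if t ≤ 3 / 2 then 5 * t / 9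
  else if t ≤ 5 / 3 then t - 2 / 3
  else if t ≤ 2 then 1
  else t - 1

open Pool.Agent.TH876.Loc Pool.Agent.TH402.AK.Weak in
/-- **The exceptions to the weak abc inequality.** Let `K` be a number field of degree `d`, `κ ≥ 1/3`
and `c` real; for `B ≥ 1` let `N(B)` be the number of the `x ∈ K`, `x ≠ 0, 1`, of height `H(x) ≤ B`
with `h(x) ≥ κ (cond(x) + cond(1/x) + cond(x - 1)) - c`. For every `δ > 0`,
`N(B) = O(B ^ (d F(1/κ) + δ))`. For `κ < 1` there is `c₁ > 0` with `N(B) ≥ c₁ B ^ (d (1/κ - 1))` for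
large `B`; note `F(1/κ) = 1/κ - 1` for `1/3 ≤ κ ≤ 1/2`. -/
theorem result : ∀ (K : Type) [Field K] [NumberField K] (κ c : ℝ), 1 / 3 ≤ κ →
    (∀ δ : ℝ, 0 < δ → ∃ C : ℝ, ∀ B : ℝ, 1 ≤ B → (Exceptions K κ c B).Finite ∧
      ((Exceptions K κ c B).ncard : ℝ) ≤
        C * B ^ ((Module.finrank ℚ K : ℝ) * F (1 / κ) + δ)) ∧
    (κ < 1 → ∃ c₁ B₀ : ℝ, 0 < c₁ ∧ ∀ B : ℝ, B₀ ≤ B →
      c₁ * B ^ ((Module.finrank ℚ K : ℝ) * (1 / κ - 1)) ≤ ((Exceptions K κ c B).ncard : ℝ)) := by
  classical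
  intro K _ _ κ c hκ
  have hκ0 : 0 < κ := by linarith
  have hd : 0 < (Module.finrank ℚ K : ℝ) := d_pos
  have ht3 : 1 / κ ≤ 3 := by
    rw [div_le_iff₀ hκ0]
    linarith
  have hup : ∀ δ : ℝ, 0 < δ → ∃ C : ℝ, ∀ B : ℝ, 1 ≤ B → (Exceptions K κ c B).Finite ∧
      ((Exceptions K κ c B).ncard : ℝ) ≤
        C * B ^ ((Module.finrank ℚ K : ℝ) * F (1 / κ) + δ) := by
    intro δ hδ
    obtain ⟨C, hC, h⟩ := Pool.Agent.R365.AK.affExc K (1 / κ)
      ((Module.finrank ℚ K : ℝ) * c / κ) (δ / Module.finrank ℚ K) (by positivity) ht3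
      (by positivity)
    obtain ⟨D, hD⟩ : ∃ D : ℝ, D = Real.exp ((Pool.Agent.R365.AK.eK (1 / κ) +
      δ / Module.finrank ℚ K) * ((Module.finrank ℚ K : ℝ) * Real.log 2)) := ⟨_, rfl⟩
    refine ⟨C * D, fun B hB => Pool.Agent.Y557.WK.fin_of_bound _ _ fun G hG => ?_⟩
    have hB0 : 0 < B := by linarith
    have h1 := h ((Module.finrank ℚ K : ℝ) * (Real.log B + Real.log 2))
      (mul_nonneg hd.le (add_nonneg (Real.log_nonneg hB) (Real.log_nonneg (by norm_num))))
      (G.image Neg.neg) (by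
      intro y hy
      obtain ⟨x, hx, rfl⟩ := Finset.mem_image.1 hy
      obtain ⟨h2, h3, h4, h5⟩ := hG hx
      have h6 := Pool.Agent.Y557.WK.le_hgt h2 h3
      have h7 := hgt_le h2 h3
      have h4' : Pool.Agent.TH402.AK.Weak.height x ≤ Real.log B :=
        (Real.le_log_iff_exp_le hB0).2 h4
      refine ⟨pt_neg h2 h3, ?_, ?_⟩
      · refine h7.trans (mul_le_mul_of_nonneg_left ?_ hd.le)
        linarith
      · rw [← cond_sum h2 h3]
        have h8 : κ * (Pool.Agent.TH402.AK.Weak.cond x + Pool.Agent.TH402.AK.Weak.cond x⁻¹ +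
          Pool.Agent.TH402.AK.Weak.cond (x - 1)) ≤ Pool.Agent.TH402.AK.Weak.height x + c := h5
        have h9 : 1 / κ * hgt (-x) + (Module.finrank ℚ K : ℝ) * c / κ =
            (hgt (-x) + (Module.finrank ℚ K : ℝ) * c) / κ := by ring
        rw [h9, le_div_iff₀ hκ0]
        have h10 := mul_le_mul_of_nonneg_left h8 hd.le
        linarith)
    rw [Finset.card_image_of_injective _ neg_injective] at h1
    refine h1.trans (le_of_eq ?_)
    rw [mul_assoc C D, hD, Real.rpow_def_of_pos hB0, ← Real.exp_add]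
    congr 2
    have e1 : F (1 / κ) = Pool.Agent.R365.AK.eK (1 / κ) := rfl
    rw [e1]
    field_simp
    ring
  refine ⟨hup, fun h1 => ?_⟩
  have ht1 : 1 < 1 / κ := by
    rw [lt_div_iff₀ hκ0]
    linarith
  obtain ⟨c₁, Z₀, hc, hZ₀, h⟩ := Pool.Agent.R365.AK.affLow K (1 / κ)
    ((Module.finrank ℚ K : ℝ) * (c - Real.log 2) / κ) ht1 ht3
  refine ⟨c₁, Real.exp (Z₀ / Module.finrank ℚ K), hc, fun B hB => ?_⟩
  have hB1 : 1 ≤ B := (Real.one_le_exp (by positivity)).trans hB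
  have hB0 : 0 < B := by linarith
  obtain ⟨G, hG, hcard⟩ := h ((Module.finrank ℚ K : ℝ) * Real.log B) (by
    have h2 := (Real.le_log_iff_exp_le hB0).2 hB
    rw [div_le_iff₀ hd] at h2
    linarith)
  have hsub : ((G.image Neg.neg : Finset K) : Set K) ⊆ Exceptions K κ c B := by
    intro x hx
    rw [Finset.mem_coe, Finset.mem_image] at hx
    obtain ⟨z, hz, rfl⟩ := hx
    obtain ⟨⟨p1, p2⟩, p3, p4⟩ := hG z hz
    have q0 : -z ≠ 0 := neg_ne_zero.2 p1
    have q1 : -z ≠ 1 := by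
      intro h
      apply p2
      linear_combination -h
    have h6 := Pool.Agent.Y557.WK.le_hgt q0 q1
    have h7 := hgt_le q0 q1
    have h8 := cond_sum q0 q1
    rw [neg_neg] at h6 h7 h8
    refine ⟨q0, q1, ?_, ?_⟩
    · refine (Real.le_log_iff_exp_le hB0).1 ?_
      exact le_of_mul_le_mul_left (h6.trans p3) hd
    · rw [← h8] at p4
      have h9 : 1 / κ * hgt z + (Module.finrank ℚ K : ℝ) * (c - Real.log 2) / κ =
          (hgt z + (Module.finrank ℚ K : ℝ) * (c - Real.log 2)) / κ := by ring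
      rw [h9, le_div_iff₀ hκ0] at p4
      have h10 : (Module.finrank ℚ K : ℝ) * (κ * (Pool.Agent.TH402.AK.Weak.cond (-z) +
          Pool.Agent.TH402.AK.Weak.cond (-z)⁻¹ + Pool.Agent.TH402.AK.Weak.cond (-z - 1))) ≤
          (Module.finrank ℚ K : ℝ) * (Pool.Agent.TH402.AK.Weak.height (-z) + c) := by
        linarith
      exact le_of_mul_le_mul_left h10 hd
  have h2 := Set.ncard_le_ncard hsub ((hup 1 one_pos).choose_spec B hB1).1
  rw [Set.ncard_coe_finset, Finset.card_image_of_injective _ neg_injective] at h2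
  have h4 : Real.exp ((1 / κ - 1) * ((Module.finrank ℚ K : ℝ) * Real.log B)) =
      B ^ ((Module.finrank ℚ K : ℝ) * (1 / κ - 1)) := by
    rw [Real.rpow_def_of_pos hB0]
    congr 1
    ring
  rw [h4] at hcard
  exact hcard.trans (by exact_mod_cast h2)

end Pool.Agent.Results.MP_f5a5f7_nt.ExceptionsAtEveryLevel
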