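import Mathlib
import Pool.Agent.R365.SH.Aff
import Pool.Agent.Y557.WK.Bridge

/-!
# The numbers of a number field ordered by their conductors: the sharp count and the tails
-/

set_option autoImplicit false

namespace Pool.Agent.Results.MP_f5a5f7_nt.SharpCount

open NumberField IsDedekindDomain Filter Topology

variable {K : Type} [Field K] [NumberField K]

/-- the height `h(x)`, as in the problem -/
noncomputable def height (x : K) : ℝ :=
  (1 / (Module.finrank ℚ K : ℝ)) *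
    ((∑ w : InfinitePlace K, (w.mult : ℝ) * Real.log (max 1 (w x))) +
      ∑ᶠ v : HeightOneSpectrum (𝓞 K), Real.log (max 1 (FinitePlace.mk v x)))

/-- the conductor `cond(x)`, as in the problem: the sum of `log N(v) / d` over the primes `v` at
which `x` has a positive valuation -/
noncomputable def cond (x : K) : ℝ :=
  (1 / (Module.finrank ℚ K : ℝ)) *
    (∑ᶠ v : HeightOneSpectrum (𝓞 K),
      (if FinitePlace.mk v x < 1 then Real.log (Ideal.absNorm v.asIdeal : ℝ) else 0))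

/-- the numbers `x ∈ K`, `x ≠ 0, 1`, with `cond(x) + cond(1/x) + cond(x - 1) ≤ log X`; there is no
condition on the height of `x` -/
def Numbers (K : Type) [Field K] [NumberField K] (X : ℝ) : Set K :=
  {x | x ≠ 0 ∧ x ≠ 1 ∧ Real.exp (cond x + cond x⁻¹ + cond (x - 1)) ≤ X}

/-- those among them with `cond(x) + cond(1/x) + cond(x - 1) + t ≤ 3 h(x)` -/
def Exceptions (K : Type) [Field K] [NumberField K] (X t : ℝ) : Set K :=
  {x | x ≠ 0 ∧ x ≠ 1 ∧ Real.exp (cond x + cond x⁻¹ + cond (x - 1)) ≤ X ∧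
    cond x + cond x⁻¹ + cond (x - 1) + t ≤ 3 * height x}

open Pool.Agent.TH876.Loc Pool.Agent.TH402.AK.Weak Pool.Agent.Y557.WK in
/-- the upper bound -/
theorem upper (K : Type) [Field K] [NumberField K] : ∃ C : ℝ, 0 < C ∧ ∀ X : ℝ, 1 ≤ X →
    (Numbers K X).Finite ∧
      ((Numbers K X).ncard : ℝ) ≤ C * X ^ ((2 / 3 : ℝ) * (Module.finrank ℚ K : ℝ)) := by
  classical
  have hd := d_pos (K := K)
  obtain ⟨D, hD, h⟩ := Pool.Agent.R365.SH.aff_upper K
  refine ⟨D, hD, fun X hX => fin_of_bound _ _ fun G hG => ?_⟩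
  have hX0 : 0 < X := by linarith
  have h1 := h (X ^ (Module.finrank ℚ K : ℝ)) (Real.one_le_rpow hX hd.le) (G.image Neg.neg) (by
    intro y hy
    obtain ⟨x, hx, rfl⟩ := Finset.mem_image.1 hy
    obtain ⟨h2, h3, h4⟩ := hG hx
    exact ⟨pt_neg h2 h3, nn_le_of h2 h3 h4⟩)
  rw [Finset.card_image_of_injective _ neg_injective] at h1
  refine h1.trans (le_of_eq ?_)
  rw [← Real.rpow_mul hX0.le]
  congr 2
  ring

open Pool.Agent.TH876.Loc Pool.Agent.TH402.AK.Weak Pool.Agent.Y557.WK in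
/-- the lower bound -/
theorem lower (K : Type) [Field K] [NumberField K] : ∃ c X₀ : ℝ, 0 < c ∧ ∀ X : ℝ, X₀ ≤ X →
      c * X ^ ((2 / 3 : ℝ) * (Module.finrank ℚ K : ℝ)) ≤ ((Numbers K X).ncard : ℝ) := by
  classical
  have hd := d_pos (K := K)
  obtain ⟨c, X0, hc, h⟩ := Pool.Agent.R365.SH.aff_lower K
  obtain ⟨C, -, hC⟩ := upper K
  refine ⟨c, max 1 ((max 1 X0) ^ (1 / (Module.finrank ℚ K : ℝ))), hc, fun X hX => ?_⟩
  have hX1 : 1 ≤ X := (le_max_left _ _).trans hX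
  have hXp : 0 < X := by linarith
  have h1 : X0 ≤ X ^ (Module.finrank ℚ K : ℝ) := by
    have h2 : (max 1 X0) ^ (1 / (Module.finrank ℚ K : ℝ)) ≤ X := (le_max_right _ _).trans hX
    have h3 := Real.rpow_le_rpow (by positivity) h2 hd.le
    rw [← Real.rpow_mul (by positivity), one_div, inv_mul_cancel₀ hd.ne', Real.rpow_one] at h3
    exact (le_max_right _ _).trans h3
  obtain ⟨F, hF1, hF2⟩ := h _ h1
  have hsub : ((F.image Neg.neg : Finset K) : Set K) ⊆ Numbers K X := by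
    intro x hx
    rw [Finset.mem_coe, Finset.mem_image] at hx
    obtain ⟨z, hz, rfl⟩ := hx
    obtain ⟨⟨p1, p2⟩, p3⟩ := hF1 z hz
    have q0 : -z ≠ 0 := neg_ne_zero.2 p1
    have q1 : -z ≠ 1 := by
      intro h
      apply p2
      linear_combination -h
    refine ⟨q0, q1, of_nn_le q0 q1 hX1 ?_⟩
    rw [neg_neg]
    exact p3
  have h3 := Set.ncard_le_ncard hsub (hC X hX1).1
  rw [Set.ncard_coe_finset, Finset.card_image_of_injective _ neg_injective] at h3
  have h4 : (F.card : ℝ) ≤ ((Numbers K X).ncard : ℝ) := by exact_mod_cast h3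
  refine le_trans (le_of_eq ?_) (hF2.trans h4)
  rw [← Real.rpow_mul hXp.le]
  congr 2
  ring

open Pool.Agent.TH876.Loc Pool.Agent.TH402.AK.Weak Pool.Agent.Y557.WK in
/-- the tails -/
theorem tail (K : Type) [Field K] [NumberField K] (c : ℝ) (hc0 : 0 ≤ c) (hc1 : c < 1 / 3) :
    ∃ C ν : ℝ, 0 < C ∧ 0 < ν ∧ ∀ X t : ℝ, 1 ≤ X → 0 ≤ t →
      ((Exceptions K X t).ncard : ℝ) ≤
        C * (Real.exp (-(c * (Module.finrank ℚ K : ℝ) * t)) + X ^ (-ν)) *
          X ^ ((2 / 3 : ℝ) * (Module.finrank ℚ K : ℝ)) := by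
  classical
  have hd := d_pos (K := K)
  obtain ⟨D, ν, hD, hν, h⟩ := Pool.Agent.R365.SH.aff_tail K c hc0 hc1
  refine ⟨D, (Module.finrank ℚ K : ℝ) * ν, hD, by positivity,
    fun X t hX ht => (fin_of_bound _ _ fun G hG => ?_).2⟩
  have hX0 : 0 < X := by linarith
  have h1 := h (X ^ (Module.finrank ℚ K : ℝ)) ((Module.finrank ℚ K : ℝ) * t)
    (Real.one_le_rpow hX hd.le) (by positivity) (G.image Neg.neg) (by
    intro y hy
    obtain ⟨x, hx, rfl⟩ := Finset.mem_image.1 hy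
    obtain ⟨h2, h3, h4, h5⟩ := hG hx
    refine ⟨pt_neg h2 h3, nn_le_of h2 h3 h4, ?_⟩
    rw [← cond_sum h2 h3]
    have h6 := le_hgt h2 h3
    have h5' : Pool.Agent.TH402.AK.Weak.cond x + Pool.Agent.TH402.AK.Weak.cond x⁻¹ +
      Pool.Agent.TH402.AK.Weak.cond (x - 1) + t ≤ 3 * Pool.Agent.TH402.AK.Weak.height x := h5
    have h7 := mul_le_mul_of_nonneg_left h5' hd.le
    linarith)
  rw [Finset.card_image_of_injective _ neg_injective] at h1
  refine h1.trans (le_of_eq ?_)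
  rw [← Real.rpow_mul hX0.le, ← Real.rpow_mul hX0.le]
  congr 2
  · congr 2
    · ring
    · ring_nf
  · ring

/-- **The numbers of a number field by their conductors.** Let `K` be a number field of degree `d`
and `c(x) = cond(x) + cond(1/x) + cond(x - 1)`. Let `N(X)` be the number of the `x ∈ K`, `x ≠ 0, 1`,
with `exp c(x) ≤ X`, of whatever height.
(1) `N(X)` is finite, and `c₁ X ^ (2 d / 3) ≤ N(X) ≤ c₂ X ^ (2 d / 3)` for large `X`, `c₁ > 0`.
(2) For every `c < 1 / 3` there are `C` and `ν > 0` such that for all `X ≥ 1`, `t ≥ 0` at most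
`C (exp(-c d t) + X ^ (-ν)) X ^ (2 d / 3)` of these `x` violate `3 h(x) < c(x) + t`.
(3) For every function `ψ` tending to infinity the proportion of those which violate
`3 h(x) < c(x) + ψ(X)` tends to `0`. -/
theorem result : ∀ (K : Type) [Field K] [NumberField K],
    (∀ X : ℝ, 1 ≤ X → (Numbers K X).Finite) ∧
    (∃ c₁ c₂ X₀ : ℝ, 0 < c₁ ∧ ∀ X : ℝ, X₀ ≤ X →
      c₁ * X ^ ((2 / 3 : ℝ) * (Module.finrank ℚ K : ℝ)) ≤ ((Numbers K X).ncard : ℝ) ∧
      ((Numbers K X).ncard : ℝ) ≤ c₂ * X ^ ((2 / 3 : ℝ) * (Module.finrank ℚ K : ℝ))) ∧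
    (∀ c : ℝ, 0 ≤ c → c < 1 / 3 → ∃ C ν : ℝ, 0 < ν ∧ ∀ X t : ℝ, 1 ≤ X → 0 ≤ t →
      ((Exceptions K X t).ncard : ℝ) ≤
        C * (Real.exp (-(c * (Module.finrank ℚ K : ℝ) * t)) + X ^ (-ν)) *
          X ^ ((2 / 3 : ℝ) * (Module.finrank ℚ K : ℝ))) ∧
    (∀ ψ : ℝ → ℝ, Tendsto ψ atTop atTop →
      Tendsto (fun X : ℝ => ((Exceptions K X (ψ X)).ncard : ℝ) / ((Numbers K X).ncard : ℝ))
        atTop (𝓝 0)) := by
  intro K _ _
  have hd : 0 < (Module.finrank ℚ K : ℝ) := Pool.Agent.TH402.AK.Weak.d_pos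
  obtain ⟨c₂, hc₂, hup⟩ := upper K
  obtain ⟨c₁, X₀, hc₁, hlow⟩ := lower K
  refine ⟨fun X hX => (hup X hX).1, ⟨c₁, c₂, max 1 X₀, hc₁, fun X hX =>
    ⟨hlow X ((le_max_right _ _).trans hX), (hup X ((le_max_left _ _).trans hX)).2⟩⟩, ?_, ?_⟩
  · intro c hc0 hc1
    obtain ⟨C, ν, _, hν, h⟩ := tail K c hc0 hc1
    exact ⟨C, ν, hν, h⟩
  · intro ψ hψ
    obtain ⟨C', ν', hC', hν', h⟩ := tail K (1 / 4) (by norm_num) (by norm_num)
    have hlim : Tendsto (fun X : ℝ => C' / c₁ *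
        (Real.exp (-(1 / 4 * (Module.finrank ℚ K : ℝ) * ψ X)) + X ^ (-ν'))) atTop (𝓝 0) := by
      have h1 : Tendsto (fun X : ℝ => Real.exp (-(1 / 4 * (Module.finrank ℚ K : ℝ) * ψ X)))
          atTop (𝓝 0) :=
        Real.tendsto_exp_neg_atTop_nhds_zero.comp (hψ.const_mul_atTop (by positivity))
      have h2 : Tendsto (fun X : ℝ => X ^ (-ν')) atTop (𝓝 0) :=
        tendsto_rpow_neg_atTop hν'
      have h3 := (h1.add h2).const_mul (C' / c₁)
      rwa [add_zero, mul_zero] at h3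
    refine squeeze_zero' (Eventually.of_forall fun X => by positivity) ?_ hlim
    filter_upwards [eventually_ge_atTop (max 1 X₀), hψ.eventually_ge_atTop 0] with X hX hψX
    have hX1 : 1 ≤ X := (le_max_left _ _).trans hX
    have hX0 : 0 < X := by linarith
    have hp : 0 < X ^ ((2 / 3 : ℝ) * (Module.finrank ℚ K : ℝ)) := Real.rpow_pos_of_pos hX0 _
    have g1 := hlow X ((le_max_right _ _).trans hX)
    have g2 := h X (ψ X) hX1 hψX
    have g3 : 0 < c₁ * X ^ ((2 / 3 : ℝ) * (Module.finrank ℚ K : ℝ)) := by positivity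
    have g4 : 0 < ((Numbers K X).ncard : ℝ) := g3.trans_le g1
    rw [div_le_iff₀ g4]
    refine g2.trans ?_
    have g5 : 0 ≤ C' / c₁ * (Real.exp (-(1 / 4 * (Module.finrank ℚ K : ℝ) * ψ X)) +
        X ^ (-ν')) := by positivity
    have g6 := mul_le_mul_of_nonneg_left g1 g5
    refine le_trans (le_of_eq ?_) g6
    field_simp

end Pool.Agent.Results.MP_f5a5f7_nt.SharpCount
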