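import Pool.Agent.Results.MP_f5a5f7_nt.FewExceptions
import Pool.Agent.R559.NP.Near

/-!
# The weak abc inequality for the numbers near a given point

Let `K` be a number field of degree `d` and `φ` any map from `K` to a metric space `X`, for example an embedding in a
completion of `K`.  For all `ξ ∈ X` outside a set of Hausdorff dimension zero, all `τ > 0` and `A` there is `κ` such that ALL
`x ∈ K`, `x ≠ 0, 1`, with `dist (φ x) ξ ≤ A exp (- τ h(x))` satisfy
`h(x) ≤ κ (cond(x) + cond(1/x) + cond(x - 1) + 1)`.  For each `κ > 1` the inequality with this `κ` holds for these `x`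
with finitely many exceptions, for all `ξ` outside a set of dimension at most `d min (4 / (7 κ), 20 / 37) / τ`.
-/

set_option autoImplicit false

namespace Pool.Agent.Results.MP_f5a5f7_nt.NumbersNearAPoint

open NumberField IsDedekindDomain Filter Topology MeasureTheory
open FewExceptions (height exceptional)

/-- the conductor of the problem -/
noncomputable abbrev Cond {K : Type} [Field K] [NumberField K] (x : K) : ℝ := FewExceptions.cond x

/-- `cond(x) + cond(1/x) + cond(x - 1)` -/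
noncomputable def cond3 {K : Type} [Field K] [NumberField K] (x : K) : ℝ := Cond x + Cond x⁻¹ + Cond (x - 1)

/-- the exponent `d min (4 / (7 κ), 20 / 37)`, `d` the degree of `K` -/
noncomputable def expo (K : Type) [Field K] [NumberField K] (κ : ℝ) : ℝ :=
  (Module.finrank ℚ K : ℝ) * min (4 / (7 * κ)) (20 / 37)

section
variable {K : Type} [Field K] [NumberField K]

lemma height_nonneg (x : K) : 0 ≤ height x := by
  unfold height
  refine mul_nonneg (by positivity) (add_nonneg ?_ ?_)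
  · exact Finset.sum_nonneg fun w _ => mul_nonneg (Nat.cast_nonneg _) (Real.log_nonneg (le_max_left _ _))
  · exact finsum_nonneg fun v => Real.log_nonneg (le_max_left _ _)

lemma cond_nonneg (x : K) : 0 ≤ Cond x := by
  unfold Cond FewExceptions.cond
  refine mul_nonneg (by positivity) (finsum_nonneg fun v => ?_)
  split_ifs
  · exact Real.log_natCast_nonneg _
  · exact le_rfl

lemma expo_nonneg {κ : ℝ} (hκ : 1 < κ) : 0 ≤ expo K κ := by
  unfold expo
  have h1 : 0 ≤ min (4 / (7 * κ)) (20 / 37 : ℝ) := le_min (by positivity) (by norm_num)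
  positivity

lemma expo_tendsto : Tendsto (fun j : ℕ => expo K ((j : ℝ) + 2)) atTop (𝓝 0) := by
  have h1 : Tendsto (fun j : ℕ => (Module.finrank ℚ K : ℝ) * (1 / ((j : ℝ) + 1))) atTop (𝓝 0) := by
    have := tendsto_one_div_add_atTop_nhds_zero_nat.const_mul (Module.finrank ℚ K : ℝ)
    rwa [mul_zero] at this
  refine squeeze_zero (fun j => expo_nonneg (by linarith [(Nat.cast_nonneg j : (0 : ℝ) ≤ j)])) (fun j => ?_) h1
  unfold expo
  refine mul_le_mul_of_nonneg_left ((min_le_left _ _).trans ?_) (Nat.cast_nonneg _)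
  have hj : (0 : ℝ) ≤ (j : ℝ) := Nat.cast_nonneg j
  rw [div_le_div_iff₀ (by positivity) (by positivity)]
  linarith

lemma count {κ b ε : ℝ} (hκ : 1 < κ) (hε : 0 < ε) : ∃ C : ℝ, ∀ B : ℝ, 1 ≤ B →
    {x : K | (x ≠ 0 ∧ x ≠ 1 ∧ κ * cond3 x ≤ height x + b) ∧ Real.exp (height x) ≤ B}.Finite ∧
    (({x : K | (x ≠ 0 ∧ x ≠ 1 ∧ κ * cond3 x ≤ height x + b) ∧ Real.exp (height x) ≤ B}.ncard : ℕ) : ℝ) ≤
      C * B ^ (expo K κ + ε) := by
  obtain ⟨C, hC⟩ := FewExceptions.result K κ b ε hκ hε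
  refine ⟨C, fun B hB => ?_⟩
  have e : {x : K | (x ≠ 0 ∧ x ≠ 1 ∧ κ * cond3 x ≤ height x + b) ∧ Real.exp (height x) ≤ B} =
      exceptional K κ b B := by
    ext x
    simp only [exceptional, cond3, Cond, Set.mem_ofPred_eq]
    tauto
  rw [e]
  exact hC B hB

end

/-- **Theorem.** Let `K` be a number field of degree `d` and `φ` a map from `K` to a metric space `X`.
(1) For all `ξ ∈ X` outside a set of Hausdorff dimension zero and all `A` and `τ > 0` there is `κ > 1` such that all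
`x ∈ K`, `x ≠ 0, 1`, with `dist (φ x) ξ ≤ A exp (- τ h(x))` satisfy
`h(x) ≤ κ (cond(x) + cond(1/x) + cond(x - 1) + 1)`.
(2) Let `κ > 1`, `τ > 0`.  For all `ξ ∈ X` outside a set of Hausdorff dimension at most
`d min (4 / (7 κ), 20 / 37) / τ` and all `A`, `b` all but finitely many `x ∈ K`, `x ≠ 0, 1`, with
`dist (φ x) ξ ≤ A exp (- τ h(x))` satisfy `h(x) < κ (cond(x) + cond(1/x) + cond(x - 1)) - b`.
(3) If `μ` is a measure on `X` for which the closed balls of radius `r` have measure at most `C₀ r ^ m`, and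
`d min (4 / (7 κ), 20 / 37) < τ m`, the same holds for `μ`-almost all `ξ`. -/
theorem result (K : Type) [Field K] [NumberField K] (X : Type) [MetricSpace X] (φ : K → X) :
    (∃ E : Set X, dimH E = 0 ∧ ∀ ξ : X, ξ ∉ E → ∀ A τ : ℝ, 0 < τ → ∃ κ : ℝ, 1 < κ ∧
      ∀ x : K, x ≠ 0 → x ≠ 1 → dist (φ x) ξ ≤ A * Real.exp (-τ * height x) →
        height x ≤ κ * (Cond x + Cond x⁻¹ + Cond (x - 1) + 1)) ∧
    (∀ κ τ : ℝ, 1 < κ → 0 < τ → ∃ E : Set X,
      dimH E ≤ ENNReal.ofReal (Module.finrank ℚ K * min (4 / (7 * κ)) (20 / 37) / τ) ∧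
      ∀ ξ : X, ξ ∉ E → ∀ A b : ℝ,
        {x : K | x ≠ 0 ∧ x ≠ 1 ∧ dist (φ x) ξ ≤ A * Real.exp (-τ * height x) ∧
          ¬ height x < κ * (Cond x + Cond x⁻¹ + Cond (x - 1)) - b}.Finite) ∧
    (∀ [MeasurableSpace X] (μ : Measure X) (C₀ m : ℝ),
      (∀ (x : X) (r : ℝ), 0 < r → μ (Metric.closedBall x r) ≤ ENNReal.ofReal (C₀ * r ^ m)) →
      ∀ κ τ : ℝ, 1 < κ → 0 < τ → Module.finrank ℚ K * min (4 / (7 * κ)) (20 / 37) < τ * m →
      ∀ᵐ ξ ∂μ, ∀ A b : ℝ,
        {x : K | x ≠ 0 ∧ x ≠ 1 ∧ dist (φ x) ξ ≤ A * Real.exp (-τ * height x) ∧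
          ¬ height x < κ * (Cond x + Cond x⁻¹ + Cond (x - 1)) - b}.Finite) := by
  have hK : Countable K := (Module.finBasis ℚ K).equivFun.injective.countable
  have hH : ∀ x : K, 1 ≤ Real.exp (height x) := fun x => Real.one_le_exp (height_nonneg x)
  have hexp : ∀ (τ : ℝ) (x : K), Real.exp (height x) ^ (-τ) = Real.exp (-τ * height x) := by
    intro τ x
    rw [← Real.exp_mul]
    ring_nf
  -- from natural to real constants `b`
  have hb : ∀ (κ τ : ℝ) (ξ : X), 1 < κ → (∀ (b : ℕ) (A : ℝ),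
      {x : K | dist (φ x) ξ ≤ A * Real.exp (height x) ^ (-τ) ∧
        (x ≠ 0 ∧ x ≠ 1 ∧ κ * cond3 x ≤ height x + (b : ℝ))}.Finite) → ∀ A b : ℝ,
      {x : K | x ≠ 0 ∧ x ≠ 1 ∧ dist (φ x) ξ ≤ A * Real.exp (-τ * height x) ∧
          ¬ height x < κ * (Cond x + Cond x⁻¹ + Cond (x - 1)) - b}.Finite := by
    intro κ τ ξ hκ h A b
    obtain ⟨n, hn⟩ := exists_nat_ge b
    refine (h n A).subset ?_
    rintro x ⟨h0, h1, h2, h3⟩
    refine ⟨by rw [hexp]; exact h2, h0, h1, ?_⟩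
    unfold cond3
    linarith [not_lt.1 h3]
  refine ⟨?_, ?_, ?_⟩
  · obtain ⟨E, hE, hE'⟩ := Pool.Agent.R559.NP.near_zero (T := K) (X := X)
      (H := fun x => Real.exp (height x)) hH
      (Bad := fun j x => x ≠ 0 ∧ x ≠ 1 ∧ ((j : ℝ) + 2) * cond3 x ≤ height x + 0)
      (s := fun j => expo K ((j : ℝ) + 2))
      (fun j => expo_nonneg (by linarith [(Nat.cast_nonneg j : (0 : ℝ) ≤ j)])) expo_tendsto
      (fun j ε hε => count (by linarith [(Nat.cast_nonneg j : (0 : ℝ) ≤ j)]) hε) φ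
    refine ⟨E, hE, fun ξ hξ A τ hτ => ?_⟩
    obtain ⟨j, hj⟩ := hE' ξ hξ A τ hτ
    obtain ⟨M, hM⟩ := (hj.image fun x => height x).bddAbove
    have hj0 : (0 : ℝ) ≤ (j : ℝ) := Nat.cast_nonneg j
    refine ⟨max ((j : ℝ) + 2) M, lt_of_lt_of_le (by linarith) (le_max_left _ _), fun x h0 h1 h2 => ?_⟩
    have hc : 0 ≤ Cond x + Cond x⁻¹ + Cond (x - 1) :=
      add_nonneg (add_nonneg (cond_nonneg _) (cond_nonneg _)) (cond_nonneg _)
    by_cases h3 : ((j : ℝ) + 2) * cond3 x ≤ height x + 0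
    · have h4 : height x ≤ M := hM ⟨x, ⟨by rw [hexp]; exact h2, h0, h1, h3⟩, rfl⟩
      have h5 := le_max_right ((j : ℝ) + 2) M
      have h6 := le_max_left ((j : ℝ) + 2) M
      nlinarith
    · push Not at h3
      unfold cond3 at h3
      have h6 := le_max_left ((j : ℝ) + 2) M
      nlinarith
  · intro κ τ hκ hτ
    have h := fun b : ℕ => Pool.Agent.R559.NP.near_dim (T := K) (X := X)
      (H := fun x => Real.exp (height x)) hH
      (Bad := fun x => x ≠ 0 ∧ x ≠ 1 ∧ κ * cond3 x ≤ height x + (b : ℝ)) (expo_nonneg (K := K) hκ) hτ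
      (fun ε hε => count hκ hε) φ
    choose E hE hE' using h
    refine ⟨⋃ b, E b, ?_, fun ξ hξ => hb κ τ ξ hκ fun b A => hE' b ξ (fun h => hξ (Set.mem_iUnion.2 ⟨b, h⟩)) A⟩
    rw [dimH_iUnion]
    exact iSup_le fun b => hE b
  · intro _ μ C₀ m hμ κ τ hκ hτ hm
    have h := fun b : ℕ => Pool.Agent.R559.NP.near_ae (T := K) (X := X) μ hμ
      (H := fun x => Real.exp (height x)) hH
      (Bad := fun x => x ≠ 0 ∧ x ≠ 1 ∧ κ * cond3 x ≤ height x + (b : ℝ)) (expo_nonneg (K := K) hκ) hm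
      (fun ε hε => count hκ hε) φ
    filter_upwards [ae_all_iff.2 h] with ξ hξ
    exact hb κ τ ξ hκ hξ

end Pool.Agent.Results.MP_f5a5f7_nt.NumbersNearAPoint
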