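import Pool.Agent.Results.MP_f5a5f7_nt.FewExceptions
import Pool.Agent.R482.ST.Star

/-!
# The weak abc conjecture over a number field for all numbers with height near powers, orbits and other sequences

Let `f_n`, `n = 0, 1, 2, …`, be positive functions on `(a, ∞)`, `a ≥ 0`, such that `f_n(t) / t` is nondecreasing, and such
that the sequence `f_n(t)` has exponent of convergence at most `τ` for each `t > a`: for instance `f_n(t) = t ^ (v_n)` for
exponents `v_n ≥ 1` (`τ = 0`; all powers, the powers `t ^ (3 ^ n)` of Mills, …), the orbits `f_n(t) = g (g (⋯ g (t)))` of any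
map `g` with `g(t) > t` and `g(t) / t` nondecreasing (`τ = 0`; for instance of `t² + c`), and `f_n(t) = v_n t`.
Let `K` be a number field of degree `d`, `H_K(x) = exp (d h(x))` and `θ < 1`. For all `α > a` outside a set of Hausdorff
dimension at most `τ / (1 - θ)` and each `c` there is `κ` with `h(x) ≤ κ (cond(x) + cond(1/x) + cond(x - 1) + 1)` for ALL
`x ∈ K`, `x ≠ 0, 1`, with `|H_K(x) - f_n(α)| ≤ c f_n(α) ^ θ` for some `n`. For given `κ > 1` one has
`h(x) < κ (cond(x) + cond(1/x) + cond(x - 1)) - b`, `b` any constant, for all these `x` and all large `n`, for all `α` outside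
a set of dimension at most `(min (4 / (7 κ)) (20 / 37) + τ) / (1 - θ)`.
-/

set_option autoImplicit false

namespace Pool.Agent.Results.MP_f5a5f7_nt.StarshapedWeakAbc

open NumberField IsDedekindDomain Filter Topology
open FewExceptions (height)

/-- the conductor of the problem -/
noncomputable abbrev Cond {K : Type} [Field K] [NumberField K] (x : K) : ℝ := FewExceptions.cond x

/-- the functions `f n` are positive on `(a, ∞)`, `a ≥ 0`, and `f n x / x` is nondecreasing there -/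
def Starshaped (a : ℝ) (f : ℕ → ℝ → ℝ) : Prop :=
  0 ≤ a ∧ ∀ n : ℕ, ∀ x y : ℝ, a < x → x ≤ y → 0 < f n x ∧ f n x / x ≤ f n y / y

/-- for each `x > a` the exponent of convergence of the sequence `f n x` is at most `τ` -/
def ExpLe (a : ℝ) (f : ℕ → ℝ → ℝ) (τ : ℝ) : Prop :=
  ∀ x : ℝ, a < x → ∀ t : ℝ, τ < t → Summable (fun n : ℕ => (f n x) ^ (-t))

/-- `cond(x) + cond(1/x) + cond(x - 1)` -/
noncomputable def cond3 {K : Type} [Field K] [NumberField K] (x : K) : ℝ := Cond x + Cond x⁻¹ + Cond (x - 1)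

/-- the exceptions -/
def Exc (K : Type) [Field K] [NumberField K] (κ b : ℝ) : Set K :=
  {x : K | x ≠ 0 ∧ x ≠ 1 ∧ κ * cond3 x ≤ height x + b}

lemma count (K : Type) [Field K] [NumberField K] (κ b : ℝ) (hκ : 1 < κ) (ε : ℝ) (hε : 0 < ε) :
    ∃ C : ℝ, ∀ X : ℝ, 1 ≤ X →
      {x | x ∈ Exc K κ b ∧ Real.exp ((Module.finrank ℚ K : ℝ) * height x) ≤ X}.Finite ∧
      ({x | x ∈ Exc K κ b ∧ Real.exp ((Module.finrank ℚ K : ℝ) * height x) ≤ X}.ncard : ℝ) ≤
        C * X ^ (min (4 / (7 * κ)) (20 / 37) + ε) := by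
  have hd : (0 : ℝ) < Module.finrank ℚ K := by exact_mod_cast Module.finrank_pos
  obtain ⟨C, hC⟩ := FewExceptions.result K κ b ((Module.finrank ℚ K : ℝ) * ε) hκ (by positivity)
  refine ⟨C, fun X hX => ?_⟩
  have hX0 : 0 < X := by linarith
  have hB1 : 1 ≤ X ^ (1 / (Module.finrank ℚ K : ℝ)) := Real.one_le_rpow hX (by positivity)
  have hB0 : 0 < X ^ (1 / (Module.finrank ℚ K : ℝ)) := by positivity
  have hset : {x | x ∈ Exc K κ b ∧ Real.exp ((Module.finrank ℚ K : ℝ) * height x) ≤ X} =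
      FewExceptions.exceptional K κ b (X ^ (1 / (Module.finrank ℚ K : ℝ))) := by
    ext x
    have e : Real.exp ((Module.finrank ℚ K : ℝ) * height x) ≤ X ↔
        Real.exp (height x) ≤ X ^ (1 / (Module.finrank ℚ K : ℝ)) := by
      rw [← Real.le_log_iff_exp_le hX0, ← Real.le_log_iff_exp_le hB0, Real.log_rpow hX0, one_div,
        le_inv_mul_iff₀ hd]
    constructor
    · rintro ⟨⟨h1, h2, h3⟩, h4⟩
      exact ⟨h1, h2, e.1 h4, h3⟩
    · rintro ⟨h1, h2, h3, h4⟩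
      exact ⟨⟨h1, h2, h4⟩, e.2 h3⟩
  rw [hset]
  obtain ⟨h1, h2⟩ := hC _ hB1
  refine ⟨h1, h2.trans (le_of_eq ?_)⟩
  rw [← Real.rpow_mul hX0.le]
  congr 2
  field_simp

lemma cond_nonneg {K : Type} [Field K] [NumberField K] (x : K) : 0 ≤ Cond x := by
  unfold Cond FewExceptions.cond
  refine mul_nonneg (by positivity) (finsum_nonneg fun v => ?_)
  split_ifs
  · exact Real.log_natCast_nonneg _
  · exact le_rfl

lemma cond3_nonneg {K : Type} [Field K] [NumberField K] (x : K) : 0 ≤ cond3 x := by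
  unfold cond3
  have h1 := cond_nonneg x
  have h2 := cond_nonneg x⁻¹
  have h3 := cond_nonneg (x - 1)
  linarith

lemma win (K : Type) [Field K] [NumberField K] {a : ℝ} {f : ℕ → ℝ → ℝ} {τ θ κ : ℝ} (hf : Starshaped a f) (hτ : 0 ≤ τ)
    (hE : ExpLe a f τ) (hθ : θ < 1) (hκ : 1 < κ) :
    ∃ E : Set ℝ, dimH E ≤ ENNReal.ofReal ((min (4 / (7 * κ)) (20 / 37) + τ) / (1 - θ)) ∧
      ∀ α : ℝ, a < α → α ∉ E → ∀ b c : ℝ, ∃ n₀ : ℕ, ∀ n : ℕ, n₀ ≤ n → ∀ x : K, x ≠ 0 → x ≠ 1 →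
        |Real.exp ((Module.finrank ℚ K : ℝ) * height x) - f n α| ≤ c * (f n α) ^ θ →
          height x < κ * cond3 x - b := by
  have hκ0 : 0 < κ := by linarith
  have hall : ∀ j : ℕ, ∃ E : Set ℝ, dimH E ≤ ENNReal.ofReal ((min (4 / (7 * κ)) (20 / 37) + τ) / (1 - θ)) ∧
      ∀ α : ℝ, a < α → α ∉ E → ∀ c : ℝ, ∃ n₀ : ℕ, ∀ n : ℕ, n₀ ≤ n → ∀ x ∈ Exc K κ (j : ℝ),
        c * (f n α) ^ θ < |Real.exp ((Module.finrank ℚ K : ℝ) * height x) - f n α| := fun j =>
    Pool.Agent.R482.ST.windows (Exc K κ (j : ℝ)) (fun x => Real.exp ((Module.finrank ℚ K : ℝ) * height x)) hf hτ hE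
      (s := min (4 / (7 * κ)) (20 / 37)) (le_min (by positivity) (by norm_num)) hθ (count K κ (j : ℝ) hκ)
  choose G hG1 hG2 using hall
  refine ⟨⋃ j, G j, ?_, fun α hα hαE b c => ?_⟩
  · rw [dimH_iUnion]
    exact iSup_le hG1
  · obtain ⟨j, hj⟩ := exists_nat_ge b
    obtain ⟨n₀, hn⟩ := hG2 j α hα (fun h => hαE (Set.mem_iUnion.2 ⟨j, h⟩)) c
    refine ⟨n₀, fun n hn1 x hx0 hx1 hw => ?_⟩
    by_contra hcon
    push Not at hcon
    exact absurd (hn n hn1 x ⟨hx0, hx1, by linarith⟩) (not_lt.2 hw)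

/-- **Theorem.** Let `K` be a number field of degree `d`, `f` starshaped functions on `(a, ∞)` of exponent of convergence at
most `τ ≥ 0` and `θ < 1`.
(1) There is a set `E` of Hausdorff dimension at most `τ / (1 - θ)` such that for each `α > a` outside `E` and each `c` there
is `κ > 1` with `h(x) ≤ κ (cond(x) + cond(1/x) + cond(x - 1) + 1)` for ALL `x ∈ K`, `x ≠ 0, 1`, with
`|exp (d h(x)) - f_n(α)| ≤ c f_n(α) ^ θ` for some `n`.
(2) For every `κ > 1` there is a set `E` of Hausdorff dimension at most `(min (4 / (7 κ)) (20 / 37) + τ) / (1 - θ)` such that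
for each `α > a` outside `E` and all `b`, `c`, for all but finitely many `n`, ALL `x ∈ K`, `x ≠ 0, 1`, with
`|exp (d h(x)) - f_n(α)| ≤ c f_n(α) ^ θ` satisfy `h(x) < κ (cond(x) + cond(1/x) + cond(x - 1)) - b`.
(3) The functions `v_n x`, `v_n > 0`, are starshaped on `(0, ∞)`, of exponent `τ` if `v` has exponent of convergence at most
`τ`; the functions `x ^ (v_n)`, `v_n ≥ 1`, are starshaped on `(1, ∞)`, of exponent `0` if the sums of `exp (-t v_n)` converge
for `t > 0`; and the iterates of a map `g` with `g(x) > x` for `x > a` and `g(x) / x` nondecreasing are starshaped on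
`(a, ∞)`, of exponent `0`. -/
theorem result :
    (∀ (K : Type) [Field K] [NumberField K] (a : ℝ) (f : ℕ → ℝ → ℝ) (τ θ : ℝ), Starshaped a f → 0 ≤ τ → ExpLe a f τ →
      θ < 1 →
      (∃ E : Set ℝ, dimH E ≤ ENNReal.ofReal (τ / (1 - θ)) ∧ ∀ α : ℝ, a < α → α ∉ E → ∀ c : ℝ, ∃ κ : ℝ, 1 < κ ∧
        ∀ (n : ℕ) (x : K), x ≠ 0 → x ≠ 1 →
          |Real.exp ((Module.finrank ℚ K : ℝ) * height x) - f n α| ≤ c * (f n α) ^ θ →
            height x ≤ κ * (Cond x + Cond x⁻¹ + Cond (x - 1) + 1)) ∧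
      ∀ κ : ℝ, 1 < κ → ∃ E : Set ℝ, dimH E ≤ ENNReal.ofReal ((min (4 / (7 * κ)) (20 / 37) + τ) / (1 - θ)) ∧
        ∀ α : ℝ, a < α → α ∉ E → ∀ b c : ℝ, ∃ n₀ : ℕ, ∀ n : ℕ, n₀ ≤ n → ∀ x : K, x ≠ 0 → x ≠ 1 →
          |Real.exp ((Module.finrank ℚ K : ℝ) * height x) - f n α| ≤ c * (f n α) ^ θ →
            height x < κ * (Cond x + Cond x⁻¹ + Cond (x - 1)) - b) ∧
    (∀ (v : ℕ → ℝ) (τ : ℝ), (∀ n, 0 < v n) → (∀ t : ℝ, τ < t → Summable (fun n : ℕ => (v n) ^ (-t))) →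
      Starshaped 0 (fun n x => v n * x) ∧ ExpLe 0 (fun n x => v n * x) τ) ∧
    (∀ v : ℕ → ℝ, (∀ n, 1 ≤ v n) → (∀ t : ℝ, 0 < t → Summable fun n : ℕ => Real.exp (-(t * v n))) →
      Starshaped 1 (fun n x => x ^ (v n)) ∧ ExpLe 1 (fun n x => x ^ (v n)) 0) ∧
    (∀ (a : ℝ) (g : ℝ → ℝ), 0 ≤ a → (∀ x y : ℝ, a < x → x ≤ y → g x / x ≤ g y / y) → (∀ x : ℝ, a < x → x < g x) →
      Starshaped a (fun n x => g^[n] x) ∧ ExpLe a (fun n x => g^[n] x) 0) := by
  refine ⟨fun K _ _ a f τ θ hf hτ hE hθ => ⟨?_, fun κ hκ => win K hf hτ hE hθ hκ⟩, Pool.Agent.R482.ST.ex_mul, Pool.Agent.R482.ST.ex_pow,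
    Pool.Agent.R482.ST.ex_orbit⟩
  have hθ' : 0 < 1 - θ := by linarith
  have hd : (1 : ℝ) ≤ Module.finrank ℚ K := by exact_mod_cast Module.finrank_pos
  have hall : ∀ m : ℕ, ∃ E : Set ℝ, dimH E ≤ ENNReal.ofReal ((4 / 7 * (1 / ((m : ℝ) + 1)) + τ) / (1 - θ)) ∧
      ∀ α : ℝ, a < α → α ∉ E → ∀ b c : ℝ, ∃ n₀ : ℕ, ∀ n : ℕ, n₀ ≤ n → ∀ x : K, x ≠ 0 → x ≠ 1 →
        |Real.exp ((Module.finrank ℚ K : ℝ) * height x) - f n α| ≤ c * (f n α) ^ θ →
          height x < ((m : ℝ) + 2) * cond3 x - b := by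
    intro m
    obtain ⟨E, h1, h2⟩ := win K (κ := (m : ℝ) + 2) hf hτ hE hθ (by
      have : (0 : ℝ) ≤ m := Nat.cast_nonneg m
      linarith)
    refine ⟨E, h1.trans (ENNReal.ofReal_le_ofReal ?_), h2⟩
    apply div_le_div_of_nonneg_right _ hθ'.le
    have hm : (0 : ℝ) ≤ m := Nat.cast_nonneg m
    have h3 : min (4 / (7 * ((m : ℝ) + 2))) (20 / 37 : ℝ) ≤ 4 / 7 * (1 / ((m : ℝ) + 1)) := by
      refine (min_le_left _ _).trans ?_
      rw [div_mul_div_comm, div_le_div_iff₀ (by positivity) (by positivity)]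
      nlinarith
    linarith
  choose G hG1 hG2 using hall
  refine ⟨⋂ m, G m, ?_, fun α hα hαE c => ?_⟩
  · have hlim : Tendsto (fun m : ℕ => ENNReal.ofReal ((4 / 7 * (1 / ((m : ℝ) + 1)) + τ) / (1 - θ))) atTop
        (𝓝 (ENNReal.ofReal ((4 / 7 * 0 + τ) / (1 - θ)))) :=
      ENNReal.tendsto_ofReal (((tendsto_one_div_add_atTop_nhds_zero_nat.const_mul _).add_const τ).div_const (1 - θ))
    rw [mul_zero, zero_add] at hlim
    exact ge_of_tendsto' hlim fun m => (dimH_mono (Set.iInter_subset _ m)).trans (hG1 m)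
  · rw [Set.mem_iInter] at hαE
    push Not at hαE
    obtain ⟨m, hm⟩ := hαE
    obtain ⟨n₀, hn⟩ := hG2 m α hα hm 0 c
    obtain ⟨C, hC⟩ : ∃ C : ℝ, ∀ k : ℕ, k < n₀ → f k α + |c * (f k α) ^ θ| ≤ C := by
      have hpos : ∀ i, 0 ≤ f i α + |c * (f i α) ^ θ| := fun i => by
        have := (hf.2 i α α hα le_rfl).1
        positivity
      exact ⟨∑ k ∈ Finset.range n₀, (f k α + |c * (f k α) ^ θ|), fun k hk =>
        Finset.single_le_sum (f := fun k => f k α + |c * (f k α) ^ θ|) (fun i _ => hpos i) (Finset.mem_range.2 hk)⟩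
    refine ⟨(m : ℝ) + 2 + |C|, ?_, fun n x hx0 hx1 hw => ?_⟩
    · have : (0 : ℝ) ≤ m := Nat.cast_nonneg m
      have := abs_nonneg C
      linarith
    have h3 : (0 : ℝ) ≤ m := Nat.cast_nonneg m
    have h4 := abs_nonneg C
    have h5 := cond3_nonneg x
    have h6 : ((m : ℝ) + 2) * cond3 x ≤ ((m : ℝ) + 2 + |C|) * (cond3 x + 1) := by nlinarith
    show height x ≤ ((m : ℝ) + 2 + |C|) * (cond3 x + 1)
    rcases Nat.lt_or_ge n n₀ with hlt | hge
    · have h7 : Real.exp ((Module.finrank ℚ K : ℝ) * height x) ≤ |C| := by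
        have e1 := (abs_le.1 hw).2
        have e2 := hC n hlt
        have e3 := le_abs_self (c * (f n α) ^ θ)
        have e4 := le_abs_self C
        linarith
      have h8 := Real.add_one_le_exp ((Module.finrank ℚ K : ℝ) * height x)
      have h9 : |C| ≤ ((m : ℝ) + 2 + |C|) * (cond3 x + 1) := by nlinarith
      rcases le_or_gt (height x) 0 with h0 | h0
      · have : 0 ≤ ((m : ℝ) + 2 + |C|) * (cond3 x + 1) := by positivity
        linarith
      · have h10 : height x ≤ (Module.finrank ℚ K : ℝ) * height x := le_mul_of_one_le_left h0.le hd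
        linarith
    · have := hn n hge x hx0 hx1 hw
      linarith

end Pool.Agent.Results.MP_f5a5f7_nt.StarshapedWeakAbc
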